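import Pool.Agent.Work.MP_2cfc43_lc.Z

/-!
# MP_2cfc43_lc, Q2: negative answer

Isomorphism of Kolmogorov automorphisms is not Borel reducible to the orbit equivalence relation
of a Borel action of the group of all permutations of the natural numbers on a Polish space.

* `AutI` is the space `X` of the problem: invertible measure preserving transformations of the unit
  interval with Lebesgue measure, modulo null sets; its topology `autTop` is the weak topology (the
  coarsest one for which every `T ↦ λ (T⁻¹ A ∩ B)`, `A`, `B` measurable, is continuous) and its
  measurable sets are the Borel sets of this topology.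
* `Iso S T`: measure isomorphism. `IsKol T`: `T` is a Kolmogorov automorphism.
* `Equiv.Perm ℕ` carries the topology `permTop` of pointwise convergence of the permutations and of
  their inverses, and its Borel sets.
-/

namespace Pool.Agent.Results.MP_2cfc43_lc.KolmogorovNotSInfty

open Pool.Agent.KAut

universe u

/-- There are no Polish space `Y` with a Borel action of the group of all permutations of the
natural numbers and Borel map `f : AutI → Y` reducing isomorphism of Kolmogorov automorphisms to
the orbit equivalence relation. -/
theorem result : ¬ ∃ (Y : Type u) (_ : TopologicalSpace Y) (_ : PolishSpace Y)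
    (_ : MeasurableSpace Y) (_ : BorelSpace Y) (_ : MulAction (Equiv.Perm ℕ) Y) (f : AutI → Y),
    Measurable (fun p : Equiv.Perm ℕ × Y => p.1 • p.2) ∧ Measurable f ∧
      ∀ S T : AutI, IsKol S → IsKol T → (Iso S T ↔ ∃ g : Equiv.Perm ℕ, g • f S = f T) :=
  kaut_main

end Pool.Agent.Results.MP_2cfc43_lc.KolmogorovNotSInfty
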